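import Pool.Agent.D0H10.DF.Dense
import Pool.Agent.D0H10.DF.Sharp
import Pool.Agent.D0H98.DF.MM
import Pool.Agent.D0H98.DF.RB
import Pool.Agent.D0H13.DF.Poly

/-!
# The Charney-Davis inequality and the density of the edges

`G` is a finite graph; its cliques are the faces of a flag complex `S`, and every finite flag complex is
obtained. `N = f₀` is the number of vertices, `f₁` the number of edges, `ω = ∑ (-1/2)^|T|` over all faces `T`
(the empty one included) is the Charney-Davis quantity. The question (all edge weights equal to `2`, which is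
equivalent to the general case) is whether `(-1)^m ω ≥ 0` for all flag homology `(2m-1)`-spheres.

(1), (2) The inequality, and even `(-1)^m ω > 0`, holds for all flag homology `(2m-1)`-spheres over any field,
`m ≥ 2`, with at least

  `(1 - 1/(m-1)) N²/2 + m (m+3) / (2 (m-1)) N`

edges, and more generally for all flag Eulerian complexes of this dimension, for example all closed flag
homology manifolds.

(3) The leading coefficient is sharp: for every `m ≥ 2` there are arbitrarily large flag spheres with `ω = 0` and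
exactly `(1 - 1/(m-1)) N²/2 + (m+3)/(m-1) N - 8m/(m-1)` edges.

(4), (5) The truth of the whole conjecture is decided by dense spheres: a counterexample of dimension `2n - 1`
gives, for all `j ≥ 1` and all `C`, counterexamples of dimension `2 (n + j) - 1` with at least
`(1 - 1/j) N²/2 + C N` edges. For `n = 1` these `(n, j)` are the cases which are proved in (2). So the
conjecture is equivalent to the statement that for every `n` there are `j` and `C` such that it is true for
the spheres of dimension `2m - 1`, `m = n + j`, with at least `(1 - 1/(m-n)) N²/2 + C N` edges.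

The proof. For a flag Eulerian complex of dimension `2m - 1` the Dehn-Sommerville relations give

  `4^m (-1)^m ω = ∑_{j ≤ m} (-1)^(m-j) b_j f_(j-1)`,  `b_j = ∑_{i ≤ m-j} C(2m+1-j, i)`,

where `(j+1) b_j ≤ m (m+3) b_(j+1)`. The inequality of Moon and Moser for the numbers of cliques,
`(s+1)² k_(s+1)² ≤ k_s (s (s+2) k_(s+2) + N k_(s+1))`, gives `(j+1) f_j ≥ m (m+3) f_(j-1)` for `j < m` above the
density in the theorem, so the terms of the alternating sum increase. Parts (3)-(5): doubles and joins with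
long cycles (library `Pool.Agent.R580.CD`).

Project DF: helper10 with helper98 (MM, RB) and helper13 (POLY).
-/

set_option autoImplicit false

namespace Pool.Agent.Results.MP_375bfa_co.DenseSpheres

open Pool.Agent.R580.CD Pool.Agent.D0H10.DF

/-- the number of the edges -/
noncomputable def edges {V : Type} (G : SimpleGraph V) : ℕ :=
  {T : Finset V | G.IsClique (T : Set V) ∧ T.card = 2}.ncard

/-- The Charney-Davis inequality for all flag generalized homology `(2m-1)`-spheres. -/
def CharneyDavis (m : ℕ) : Prop := ∀ (V : Type) [Fintype V] [LinearOrder V] (G : SimpleGraph V),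
  GHS (2 * m) G → 0 ≤ (-1 : ℚ) ^ m * omega G

/-- The Charney-Davis inequality for all flag generalized homology `(2m-1)`-spheres with at least
`(1 - 1/j) N²/2 + C N` edges, `N` the number of vertices. -/
def CharneyDavisAbove (m j : ℕ) (C : ℝ) : Prop :=
  ∀ (V : Type) [Fintype V] [LinearOrder V] (G : SimpleGraph V), GHS (2 * m) G →
    (1 - 1 / (j : ℝ)) * (Fintype.card V : ℝ) ^ 2 / 2 + C * Fintype.card V ≤ edges G →
    0 ≤ (-1 : ℚ) ^ m * omega G

/-- **The Charney-Davis inequality and the density of the edges.** -/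
theorem result :
    -- (1) flag Eulerian complexes of dimension at most `2 m - 1`
    (∀ (V : Type) [Fintype V] [Nonempty V] [LinearOrder V] (G : SimpleGraph V) (m : ℕ), 2 ≤ m →
      Eulerian G → (∀ T : Finset V, G.IsClique (T : Set V) → T.card ≤ 2 * m) →
      (1 - 1 / ((m : ℝ) - 1)) * (Fintype.card V : ℝ) ^ 2 / 2 +
        m * (m + 3) / (2 * (m - 1)) * Fintype.card V ≤ edges G →
      0 < (-1 : ℚ) ^ m * omega G) ∧
    -- (2) flag homology spheres over a field
    (∀ (F : Type) [Field F] (V : Type) [Fintype V] [LinearOrder V] (G : SimpleGraph V) (m : ℕ),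
      2 ≤ m → Sph F (2 * m) G →
      (1 - 1 / ((m : ℝ) - 1)) * (Fintype.card V : ℝ) ^ 2 / 2 +
        m * (m + 3) / (2 * (m - 1)) * Fintype.card V ≤ edges G →
      0 < (-1 : ℚ) ^ m * omega G) ∧
    -- (3) the density is sharp
    (∀ m N : ℕ, 2 ≤ m → ∃ (V : Type) (_ : Fintype V) (_ : LinearOrder V) (G : SimpleGraph V),
      GHS (2 * m) G ∧ N ≤ Fintype.card V ∧ omega G = 0 ∧
      (edges G : ℝ) = (1 - 1 / ((m : ℝ) - 1)) * (Fintype.card V : ℝ) ^ 2 / 2 +
        (m + 3) / (m - 1) * Fintype.card V - 8 * m / (m - 1)) ∧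
    -- (4) dense spheres of higher dimension decide
    (∀ (n j : ℕ) (C : ℝ), 1 ≤ n → 1 ≤ j → CharneyDavisAbove (n + j) j C → CharneyDavis n) ∧
    -- (5) the conjecture is equivalent to its restriction to dense spheres; `n = 1` is true by (2)
    ((∀ n : ℕ, 1 ≤ n → CharneyDavis n) ↔
      ∀ n : ℕ, 1 ≤ n → ∃ j : ℕ, 1 ≤ j ∧ ∃ C : ℝ, CharneyDavisAbove (n + j) j C) ∧
    (∀ j : ℕ, 1 ≤ j → CharneyDavisAbove (1 + j) j ((j + 1) * (j + 4) / (2 * j))) := by
  have hconv : ∀ (m : ℕ) (N e : ℝ), 2 ≤ m →
      (1 - 1 / ((m : ℝ) - 1)) * N ^ 2 / 2 + m * (m + 3) / (2 * (m - 1)) * N ≤ e →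
      ((m : ℝ) - 2) * N ^ 2 + m * (m + 3) * N ≤ 2 * ((m : ℝ) - 1) * e := by
    intro m N e hm h
    have hm2 : (2 : ℝ) ≤ m := by exact_mod_cast hm
    have h1 : (0 : ℝ) < m - 1 := by linarith
    have h2 := mul_le_mul_of_nonneg_left h (by linarith : (0 : ℝ) ≤ 2 * (m - 1))
    refine le_trans (le_of_eq ?_) h2
    field_simp
    ring
  have hdense : ∀ (F : Type) [Field F] (V : Type) [Fintype V] [LinearOrder V] (G : SimpleGraph V)
      (m : ℕ), 2 ≤ m → Sph F (2 * m) G →
      (1 - 1 / ((m : ℝ) - 1)) * (Fintype.card V : ℝ) ^ 2 / 2 +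
        m * (m + 3) / (2 * (m - 1)) * Fintype.card V ≤ edges G →
      0 < (-1 : ℚ) ^ m * omega G := by
    intro F _ V _ _ G m hm hS he
    exact t_DENSE Pool.Agent.D0H98.DF.t_MM Pool.Agent.D0H13.DF.t_POLY Pool.Agent.D0H98.DF.t_RB F V G m hm
      hS (hconv m _ _ hm he)
  have hup : ∀ (n j : ℕ) (C : ℝ), 1 ≤ n → 1 ≤ j → CharneyDavisAbove (n + j) j C → CharneyDavis n := by
    intro n j C hn hj h V _ _ G hS
    by_contra hneg
    push Not at hneg
    obtain ⟨W, i1, i2, H, h1, _, h3, h4⟩ := t_EQV V G n j C hn hj hS hneg 0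
    exact absurd (h W H h1 h3) (not_le.mpr h4)
  refine ⟨?_, hdense, ?_, hup, ⟨?_, ?_⟩, ?_⟩
  · intro V _ _ _ G m hm hG hd he
    exact dense_eulerian Pool.Agent.D0H98.DF.t_MM Pool.Agent.D0H13.DF.t_POLY Pool.Agent.D0H98.DF.t_RB hm
      hG hd (hconv m _ _ hm he)
  · intro m N hm
    exact t_SHARP m N hm
  · intro h n hn
    exact ⟨1, le_rfl, 0, fun V _ _ G hS _ => h (n + 1) (by omega) V G hS⟩
  · intro h n hn
    obtain ⟨j, hj, C, hC⟩ := h n hn
    exact hup n j C hn hj hC
  · intro j hj V _ _ G hS he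
    have hj1 : (1 : ℝ) ≤ j := by exact_mod_cast hj
    refine (hdense ℚ V G (1 + j) (by omega) (hS ℚ) ?_).le
    refine le_trans (le_of_eq ?_) he
    push_cast
    rw [show (1 + (j : ℝ)) - 1 = j by ring]
    have hj0 : (j : ℝ) ≠ 0 := by linarith
    field_simp
    ring

end Pool.Agent.Results.MP_375bfa_co.DenseSpheres
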