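import Pool.Agent.D0H80.CD.Growth

set_option autoImplicit false

/-!
# Counterexamples to the Charney-Davis inequality grow as fast as `|ω|`

`IsFlagSphere k d S` says that `S` is a flag homology `(d-1)`-sphere over the field `k`
(`Pool.Agent.W497.FS.Sphere`); `omega S = ∑ (-1/2)^|σ|` is the right-angled quantity `ω`.  The
results are stated for complexes which are flag homology spheres over all the fields `k i` of a
nonempty family: for one field these are the homology spheres over it, for the family of all prime
fields the generalized homology spheres over the integers.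

Idea: if `v` is a vertex of `S`, two copies of the complement of `v` glued along the link of `v`
form a flag homology sphere with `ω = 2 ω(S)` and fewer than `2 f₀(S)` vertices (the nerve of the
reflection subgroup of index two of the right-angled Coxeter group which avoids the reflection
`s_v`); `ω` is multiplicative under joins, so joins of a counterexample with an even number of
copies of `K` have the growth rate of `|ω(K)|`; suspensions give the averages over links.
-/

namespace Pool.Agent.Results.MP_375bfa_co.GrowthRate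

open Pool.Agent.W497.FS

/-- `κ_j(T) = (-1)^n ∑ ω(lk F)`, the sum over the faces `F` of `T` with `j` elements; it is
`(-1)^n ω(T)` for `j = 0` -/
noncomputable def kappa {N : ℕ} (n j : ℕ) (T : Finset (Finset (Fin N))) : ℝ :=
  (((-1) ^ n * ∑ F ∈ T.filter (fun F => F.card = j),
    omega (T.filter (fun G => Disjoint G F ∧ G ∪ F ∈ T)) : ℚ) : ℝ)

/-- (1) Let `K` be a flag homology `(2a-1)`-sphere, `j : ℕ` and `β ≥ 0` with
`β^(f₀(K)) < |ω(K)|`.  If for some `C` one has `κ_j(T) ≥ -C β^(f₀(T))` for all `n` and all flag
homology `(2n+j-1)`-spheres `T` then `(-1)^m ω(S) ≥ 0` for all `m` and all flag homology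
`(2m-1)`-spheres `S`.
(2) The inequality holds in all odd dimensions if and only if for some `j`, `C` and `β ≥ 0` with
`β^10 < 2` one has `κ_j(T) ≥ -C β^(f₀(T))` for all `n` and all flag homology
`(2n+j-1)`-spheres `T`. -/
theorem result (ι : Type) [Nonempty ι] (k : ι → Type) [∀ i, Field (k i)] :
    (∀ (a N₀ : ℕ) (K : Finset (Finset (Fin N₀))), (∀ i, IsFlagSphere (k i) (2 * a) K) →
      ∀ (j : ℕ) (β C : ℝ), 0 ≤ β → β ^ numVert K < |((omega K : ℚ) : ℝ)| →
        (∀ (n N : ℕ) (T : Finset (Finset (Fin N))),
          (∀ i, IsFlagSphere (k i) (2 * n + j) T) → -(C * β ^ numVert T) ≤ kappa n j T) →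
        ∀ (m N : ℕ) (S : Finset (Finset (Fin N))), (∀ i, IsFlagSphere (k i) (2 * m) S) →
          0 ≤ (-1) ^ m * omega S) ∧
    ((∀ (m N : ℕ) (S : Finset (Finset (Fin N))), (∀ i, IsFlagSphere (k i) (2 * m) S) →
        0 ≤ (-1) ^ m * omega S) ↔
      ∃ (j : ℕ) (β C : ℝ), 0 ≤ β ∧ β ^ 10 < 2 ∧ ∀ (n N : ℕ) (T : Finset (Finset (Fin N))),
        (∀ i, IsFlagSphere (k i) (2 * n + j) T) → -(C * β ^ numVert T) ≤ kappa n j T) :=
  ⟨fun _ _ _ hK _ _ _ hβ0 hβ hC _ _ _ hS => D0H80.CD.growth hK hβ0 hβ hC hS, D0H80.CD.all_exp⟩

end Pool.Agent.Results.MP_375bfa_co.GrowthRate
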