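import Pool.Agent.D0H80.CD.Tube3

set_option autoImplicit false

/-!
# The Charney-Davis inequality need only be tested on thin tubes

`IsFlagSphere k d S` says that `S` is a flag homology `(d-1)`-sphere over the field `k`
(`Pool.Agent.W497.FS.Sphere`); `omega S = ∑ (-1/2)^|σ|` is the right-angled quantity `ω`.  The
results are stated for complexes which are flag homology spheres over all the fields `k i` of a
nonempty family: for one field these are the homology spheres over it, for the family of all prime
fields the generalized homology spheres over the integers.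

Idea: if `S` is not a join, the graph of its non-edges is connected, so it has a closed walk `a`
through all vertices of a facet.  Glue copies `S_0, S_1, S_2, ...` of `S` along the links of the
vertices `a(0), a(1), ...` (the `(t+1)`-st copy loses the open star of `a(t)` and so does what was
built before).  As `a(t)` and `a(t+1)` are not adjacent, this can be done one after the other and
gives flag homology spheres; every vertex is lost after one period of the walk, so vertices of
copies far apart are never adjacent.  `ω` is additive in these gluings.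
-/

namespace Pool.Agent.Results.MP_375bfa_co.ThinTubes

open Pool.Agent.W497.FS

/-- `S` is not the join of two nonempty complexes (if it is flag with at least one vertex): any
nonempty proper part `A` of the set of vertices has a vertex which is not adjacent to some vertex
outside `A` -/
def NotJoin {N : ℕ} (S : Finset (Finset (Fin N))) : Prop :=
  ∀ A : Finset (Fin N), A.Nonempty → (∀ x ∈ A, {x} ∈ S) → (∃ y, {y} ∈ S ∧ y ∉ A) →
    ∃ x ∈ A, ∃ y, {y} ∈ S ∧ y ∉ A ∧ {x, y} ∉ S

/-- the vertices of `T` can be numbered by integers such that the numbers of adjacent vertices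
differ by at most `D`: the graph of `T` has bandwidth at most `D` -/
def Thin {N : ℕ} (D : ℕ) (T : Finset (Finset (Fin N))) : Prop :=
  ∃ b : Fin N → ℤ, (∀ x y, {x} ∈ T → {y} ∈ T → b x = b y → x = y) ∧
    ∀ x y, {x, y} ∈ T → |b x - b y| ≤ D

/-- the right-angled inequality for the `(2m-1)`-spheres over all the fields `k i` -/
def CDI {ι : Type} (k : ι → Type) [∀ i, Field (k i)] (m : ℕ) : Prop :=
  ∀ (N : ℕ) (S : Finset (Finset (Fin N))), (∀ i, IsFlagSphere (k i) (2 * m) S) →
    0 ≤ (-1) ^ m * omega S

/-- for every `v ≥ 1` there are `c < 1/(4^m v)` and `C` such that `(-1)^m ω(T) ≥ - c f₀(T) - C`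
for all `(2m-1)`-spheres `T` of bandwidth at most `2 m v^2` -/
def WeakThin {ι : Type} (k : ι → Type) [∀ i, Field (k i)] (m : ℕ) : Prop :=
  ∀ v : ℕ, 1 ≤ v → ∃ c C : ℝ, c * (4 ^ m * v) < 1 ∧ ∀ (N : ℕ) (T : Finset (Finset (Fin N))),
    (∀ i, IsFlagSphere (k i) (2 * m) T) → Thin (2 * m * v ^ 2) T →
      -(c * numVert T) - C ≤ (((-1) ^ m * omega T : ℚ) : ℝ)

/-- (1) If `S` is a flag homology `(d+1)`-sphere with `v` vertices which is not a join then for
every `N` there is a flag homology `(d+1)`-sphere `T` with `ω(T) = (N+1) ω(S)`, at most `(N+1) v`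
vertices and bandwidth at most `(d+2) v^2`.
(2) The inequality `(-1)^m' ω ≥ 0` holds for the flag homology `(2m'-1)`-spheres with `m' ≤ m` if
and only if the lower bounds `WeakThin k m'` hold for `m' ≤ m`. -/
theorem result (ι : Type) [Nonempty ι] (k : ι → Type) [∀ i, Field (k i)] :
    (∀ (d N₀ : ℕ) (S : Finset (Finset (Fin N₀))), (∀ i, IsFlagSphere (k i) (d + 2) S) →
      NotJoin S → ∀ N : ℕ, ∃ (n : ℕ) (T : Finset (Finset (Fin n))),
        (∀ i, IsFlagSphere (k i) (d + 2) T) ∧ omega T = (N + 1) * omega S ∧
          numVert T ≤ (N + 1) * numVert S ∧ Thin ((d + 2) * numVert S ^ 2) T) ∧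
    (∀ m : ℕ, (∀ m' ≤ m, CDI k m') ↔ ∀ m' ≤ m, WeakThin k m') := by
  refine ⟨?_, fun m => D0H80.CD.thin_iff m⟩
  intro d N₀ S hS hP N
  obtain ⟨i₀⟩ := ‹Nonempty ι›
  have hS0 := hS i₀
  have hHS : ∀ i, HS (k i) (skel S) (d + 2) (vert S) := fun i => by
    obtain ⟨r, hr⟩ := hS i
    exact W216.FS.HR.main W216.FS.BB.main (k i) N₀ (d + 2) S r hr
  have hSp : D0H80.CD.Sp k (skel S) (d + 2) (vert S) := ⟨hS0.np, hHS⟩
  have hPrm : Prm (skel S) (vert S) := by
    refine ⟨hS0.np.nonempty, fun A hA hne hneq => ?_⟩
    have h1 : ∃ y, {y} ∈ S ∧ y ∉ A := by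
      by_contra hcon
      push Not at hcon
      exact hneq (Finset.Subset.antisymm hA fun y hy => hcon y (mem_vert.1 hy))
    obtain ⟨x, hx, y, hy, hyA, hxy⟩ := hP A hne (fun x hx => mem_vert.1 (hA hx)) h1
    exact ⟨x, hx, y, mem_vert.2 hy, hyA, fun h => hxy h.2⟩
  obtain ⟨n, T, h1, h2, h3, h4⟩ := D0H80.CD.exists_tube (k := k) hPrm hSp N
  rw [hS0.omega_eq, numVert_eq]
  exact ⟨n, T, h1, h2, h3, h4⟩

end Pool.Agent.Results.MP_375bfa_co.ThinTubes
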