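import Pool.Agent.D0H80.CD.Weighted
import Pool.Agent.D0H84.CD.Sym

set_option autoImplicit false

/-!
# In each dimension the Charney-Davis inequality holds or every conceivable value occurs

`IsFlagSphere k d S` says that `S` is a flag homology `(d-1)`-sphere over the field `k`
(`Pool.Agent.W497.FS.Sphere`); `omega S = ∑ (-1/2)^|σ|` is the right-angled quantity `ω`.  For a
flag homology `(2m-1)`-sphere the number `(-4)^m ω` is an integer, and the inequality says that it
is nonnegative.  The results are stated for complexes which are flag homology spheres over all the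
fields `k i` of a nonempty family: for one field these are the homology spheres over it, for the
family of all prime fields the generalized homology spheres over the integers.

Idea: two flag homology spheres can be glued along isomorphic links of two vertices, and `ω` is
additive.  Any two flag homology spheres of the same dimension are the links of two non-adjacent
vertices of a third one (induction; in the suspension of `L` the edge from one of the two
suspension points to a vertex `z` of `L` is subdivided, the link of the new vertex is the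
suspension of the link of `z` in `L`).  So, with a bounded change of `ω`, chains of copies of one
sphere can be continued by chains of copies of another one, for instance of a join of pentagons,
which has `(-4)^m ω = 1`.  If one edge gets the weight `p`, then `(-4)^m ω` grows by
`(1 - 2 / p) (-4)^(m-1) ω(L)`, `L` the link of the edge; an edge with a given link can be prescribed
in the same way.

Centrally symmetric spheres: if the link of the vertex `x` of `S` is a cross-polytope, two copies of
`S` without the open star of `x` are glued along this link by its antipodal map; the exchange of the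
two copies maps no nonempty face to itself.
-/

namespace Pool.Agent.Results.MP_375bfa_co.ValuesDichotomy

open Pool.Agent.W497.FS

/-- the right-angled inequality for the `(2m-1)`-spheres over all the fields `k i` -/
def CDI {ι : Type} (k : ι → Type) [∀ i, Field (k i)] (m : ℕ) : Prop :=
  ∀ (N : ℕ) (S : Finset (Finset (Fin N))), (∀ i, IsFlagSphere (k i) (2 * m) S) →
    0 ≤ (-1) ^ m * omega S

/-- the values of `(-4)^m ω` on the `(2m-1)`-spheres over all the fields `k i` -/
def Values {ι : Type} (k : ι → Type) [∀ i, Field (k i)] (m : ℕ) : Set ℚ :=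
  {q | ∃ (N : ℕ) (T : Finset (Finset (Fin N))),
    (∀ i, IsFlagSphere (k i) (2 * m) T) ∧ (-4) ^ m * omega T = q}

/-- `T` contains the complement of the open star of `v` in `T₀`: some map `g`, injective on the
vertices `≠ v` of `T₀`, makes it a full subcomplex of `T`, and the images of the vertices which are
neither equal nor adjacent to `v` have no neighbours in `T` outside of it -/
def Contains {n N : ℕ} (T₀ : Finset (Finset (Fin n))) (v : Fin n)
    (T : Finset (Finset (Fin N))) : Prop :=
  ∃ g : Fin n → Fin N,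
    (∀ a b, {a} ∈ T₀ → {b} ∈ T₀ → a ≠ v → b ≠ v → g a = g b → a = b) ∧
    (∀ A : Finset (Fin n), (∀ a ∈ A, {a} ∈ T₀ ∧ a ≠ v) → (A ∈ T₀ ↔ A.image g ∈ T)) ∧
    (∀ a, {a} ∈ T₀ → a ≠ v → {a, v} ∉ T₀ → ∀ y, {g a, y} ∈ T →
      ∃ b, {b} ∈ T₀ ∧ b ≠ v ∧ g b = y)

/-- the values of `(-4)^m ω` on the `(2m-1)`-spheres containing the complement of the open star of
`v` in `T₀` -/
def ValuesOver {ι : Type} (k : ι → Type) [∀ i, Field (k i)] (m : ℕ) {n : ℕ}
    (T₀ : Finset (Finset (Fin n))) (v : Fin n) : Set ℚ :=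
  {q | ∃ (N : ℕ) (T : Finset (Finset (Fin N))),
    (∀ i, IsFlagSphere (k i) (2 * m) T) ∧ Contains T₀ v T ∧ (-4) ^ m * omega T = q}

/-- the quantity `ω` of `T` with the weight `p` at the edge `e` and the weight `2` at all other
edges: the Coxeter group of the simplex `σ` is a product of groups of order `2`, and of one dihedral
group of order `2 p` if `e ⊆ σ`; it has the order `2 p 2^(|σ| - 2)` if `e ⊆ σ` and `2^|σ|` if not -/
def omegaEdge {N : ℕ} (T : Finset (Finset (Fin N))) (e : Finset (Fin N)) (p : ℕ) : ℚ :=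
  ∑ σ ∈ T, (-1) ^ σ.card / (if e ⊆ σ then 2 * (p : ℚ) * 2 ^ (σ.card - 2) else 2 ^ σ.card)

/-- `T` is centrally symmetric: it has a simplicial involution which maps no nonempty face to
itself -/
def Central {N : ℕ} (T : Finset (Finset (Fin N))) : Prop :=
  ∃ σ : Fin N → Fin N, (∀ v, {v} ∈ T → σ (σ v) = v) ∧ ∀ F ∈ T, F.image σ ∈ T ∧
    (F.Nonempty → F.image σ ≠ F)

/-- the values of `(-4)^m ω` on the centrally symmetric `(2m-1)`-spheres -/
def CentralValues {ι : Type} (k : ι → Type) [∀ i, Field (k i)] (m : ℕ) : Set ℚ :=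
  {q | ∃ (N : ℕ) (T : Finset (Finset (Fin N))),
    (∀ i, IsFlagSphere (k i) (2 * m) T) ∧ Central T ∧ (-4) ^ m * omega T = q}

/-- (1) For every `m ≥ 1` one of the following holds.
(a) The inequality holds for the flag homology `(2m-1)`-spheres, the set of the values of
`(-4)^m ω` on them is `ℕ`, and so it is up to finitely many missing numbers for the spheres
containing any given `T₀` minus an open vertex star, `T₀` a flag homology `(2m-1)`-sphere.
(b) The inequality fails for the flag homology `(2m-1)`-spheres, the set of the values of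
`(-4)^m ω` on them is `ℤ`, and so it is for the spheres containing any given `T₀` minus an open
vertex star.
(2) If (b) holds for `m` then also for all larger numbers.
(3) For `m ≥ 1` the inequality holds if and only if `-1` is not a value, and if and only if for some
`T₀`, `v` some integer is not a value.
(4) Let `m ≥ 2`, and let one edge have an arbitrary weight `p ≥ 2` and all other edges the weight `2`.
In case (a) the inequality holds for all these weighted flag homology `(2m-1)`-spheres.  In case (b)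
every rational number is the quantity `ω` of one of them.
(5) For `m ≥ 1` the values on the centrally symmetric `(2m-1)`-spheres are exactly the doubles of the
values on all `(2m-1)`-spheres, and the inequality holds for all `(2m-1)`-spheres if and only if it
holds for the centrally symmetric ones. -/
theorem result (ι : Type) [Nonempty ι] (k : ι → Type) [∀ i, Field (k i)] :
    (∀ m : ℕ, 1 ≤ m →
      (CDI k m ∧ Values k m = Set.range (fun z : ℕ => (z : ℚ)) ∧
        ∀ (n : ℕ) (T₀ : Finset (Finset (Fin n))) (v : Fin n),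
          (∀ i, IsFlagSphere (k i) (2 * m) T₀) → {v} ∈ T₀ →
            ValuesOver k m T₀ v ⊆ Set.range (fun z : ℕ => (z : ℚ)) ∧
              ∃ a : ℕ, ∀ z : ℕ, a ≤ z → (z : ℚ) ∈ ValuesOver k m T₀ v) ∨
      (¬ CDI k m ∧ Values k m = Set.range (fun z : ℤ => (z : ℚ)) ∧
        ∀ (n : ℕ) (T₀ : Finset (Finset (Fin n))) (v : Fin n),
          (∀ i, IsFlagSphere (k i) (2 * m) T₀) → {v} ∈ T₀ →
            ValuesOver k m T₀ v = Set.range (fun z : ℤ => (z : ℚ)))) ∧
    (∀ m m' : ℕ, m ≤ m' → ¬ CDI k m → ¬ CDI k m') ∧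
    (∀ m : ℕ, 1 ≤ m → (CDI k m ↔ (-1 : ℚ) ∉ Values k m) ∧
      (CDI k m ↔ ∃ (n : ℕ) (T₀ : Finset (Finset (Fin n))) (v : Fin n) (z : ℤ),
        (∀ i, IsFlagSphere (k i) (2 * m) T₀) ∧ {v} ∈ T₀ ∧ (z : ℚ) ∉ ValuesOver k m T₀ v)) ∧
    (∀ m : ℕ, 2 ≤ m →
      (CDI k m → ∀ (N : ℕ) (T : Finset (Finset (Fin N))) (e : Finset (Fin N)) (p : ℕ),
        (∀ i, IsFlagSphere (k i) (2 * m) T) → e ∈ T → e.card = 2 → 2 ≤ p →
          0 ≤ (-1) ^ m * omegaEdge T e p) ∧
      (¬ CDI k m → ∀ q : ℚ, ∃ (N : ℕ) (T : Finset (Finset (Fin N))) (e : Finset (Fin N)) (p : ℕ),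
        (∀ i, IsFlagSphere (k i) (2 * m) T) ∧ e ∈ T ∧ e.card = 2 ∧ 2 ≤ p ∧
          omegaEdge T e p = q)) ∧
    (∀ m : ℕ, 1 ≤ m → CentralValues k m = (fun q => 2 * q) '' Values k m ∧
      (CDI k m ↔ ∀ (N : ℕ) (T : Finset (Finset (Fin N))), (∀ i, IsFlagSphere (k i) (2 * m) T) →
        Central T → 0 ≤ (-1) ^ m * omega T)) := by
  obtain ⟨i₀⟩ := ‹Nonempty ι›
  have hne0 : Nonempty ι := ⟨i₀⟩
  have key : ∀ m : ℕ, 1 ≤ m →
      (CDI k m ∧ Values k m = Set.range (fun z : ℕ => (z : ℚ)) ∧
        ∀ (n : ℕ) (T₀ : Finset (Finset (Fin n))) (v : Fin n),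
          (∀ i, IsFlagSphere (k i) (2 * m) T₀) → {v} ∈ T₀ →
            ValuesOver k m T₀ v ⊆ Set.range (fun z : ℕ => (z : ℚ)) ∧
              ∃ a : ℕ, ∀ z : ℕ, a ≤ z → (z : ℚ) ∈ ValuesOver k m T₀ v) ∨
      (¬ CDI k m ∧ Values k m = Set.range (fun z : ℤ => (z : ℚ)) ∧
        ∀ (n : ℕ) (T₀ : Finset (Finset (Fin n))) (v : Fin n),
          (∀ i, IsFlagSphere (k i) (2 * m) T₀) → {v} ∈ T₀ →
            ValuesOver k m T₀ v = Set.range (fun z : ℤ => (z : ℚ))) := by
    intro m hm
    have h4 : (-4 : ℚ) ^ m ≠ 0 := by positivity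
    have e2 : (-4 : ℚ) ^ m = (-1) ^ m * 4 ^ m := by rw [← mul_pow]; norm_num
    have h44 : (0 : ℚ) < 4 ^ m := by positivity
    have hint : ∀ (N : ℕ) (T : Finset (Finset (Fin N))), (∀ i, IsFlagSphere (k i) (2 * m) T) →
        ∃ z : ℤ, (-4) ^ m * omega T = z := fun N T hT => D0H80.CD.omega_int (hT i₀)
    have hlk : ∀ (n : ℕ) (T₀ : Finset (Finset (Fin n))) (v : Fin n),
        (∀ i, IsFlagSphere (k i) (2 * m) T₀) → {v} ∈ T₀ →
        D0H80.CD.Sp k (skel T₀) (2 * m - 1) (lk (skel T₀) (vert T₀) v) := by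
      intro n T₀ v hT hv
      obtain ⟨h1, -, -⟩ := D0H80.CD.sp_of hT
      have he : 2 * m = (2 * m - 1) + 1 := by omega
      rw [he] at h1
      exact h1.lk (mem_vert.2 hv)
    by_cases hC : CDI k m
    · left
      have hnat : ∀ (N : ℕ) (T : Finset (Finset (Fin N))), (∀ i, IsFlagSphere (k i) (2 * m) T) →
          ∃ z : ℕ, (z : ℚ) = (-4) ^ m * omega T := by
        intro N T hT
        obtain ⟨z, hz⟩ := hint N T hT
        have h0 := hC N T hT
        have h1 : (0 : ℚ) ≤ z := by
          rw [← hz, e2]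
          have := mul_nonneg h0 h44.le
          linarith
        have h2 : 0 ≤ z := by exact_mod_cast h1
        refine ⟨z.toNat, ?_⟩
        rw [hz]
        have h3 : ((z.toNat : ℕ) : ℤ) = z := Int.toNat_of_nonneg h2
        exact_mod_cast congrArg (fun t : ℤ => (t : ℚ)) h3
      refine ⟨hC, ?_, ?_⟩
      · ext q
        constructor
        · rintro ⟨N, T, hT, rfl⟩
          exact hnat N T hT
        · rintro ⟨z, rfl⟩
          exact D0H80.CD.nat_val hm z
      · intro n T₀ v hT hv
        refine ⟨?_, ?_⟩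
        · rintro q ⟨N, T, hT', -, rfl⟩
          exact hnat N T hT'
        · obtain ⟨a, ha⟩ := D0H80.CD.large hm (hlk n T₀ v hT hv)
          obtain ⟨b, hb⟩ := hint n T₀ hT
          refine ⟨(a + b).toNat, fun z hz => ?_⟩
          have h1 := ha ((z : ℤ) - b) (by omega)
          obtain ⟨N, T, h2, h3, h5⟩ := D0H80.CD.fill hT hv h1
          refine ⟨N, T, h2, h3, ?_⟩
          rw [h5, mul_add, hb]
          push_cast
          field_simp
          ring
    · right
      have hC' : ∃ (N₀ : ℕ) (S : Finset (Finset (Fin N₀))),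
          (∀ i, IsFlagSphere (k i) (2 * m) S) ∧ (-1) ^ m * omega S < 0 := by
        by_contra hcon
        apply hC
        intro N S hS
        by_contra h
        exact hcon ⟨N, S, hS, not_le.1 h⟩
      obtain ⟨N₀, S, hS, hneg⟩ := hC'
      have hall : ∀ (n : ℕ) (T₀ : Finset (Finset (Fin n))) (v : Fin n),
          (∀ i, IsFlagSphere (k i) (2 * m) T₀) → {v} ∈ T₀ → ∀ z : ℤ,
            (z : ℚ) ∈ ValuesOver k m T₀ v := by
        intro n T₀ v hT hv z
        obtain ⟨b, hb⟩ := hint n T₀ hT
        have h1 := D0H80.CD.all_values (hlk n T₀ v hT hv) hS hneg (z - b)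
        obtain ⟨N, T, h2, h3, h5⟩ := D0H80.CD.fill hT hv h1
        refine ⟨N, T, h2, h3, ?_⟩
        rw [h5, mul_add, hb]
        push_cast
        field_simp
        ring
      refine ⟨hC, ?_, ?_⟩
      · ext q
        constructor
        · rintro ⟨N, T, hT, rfl⟩
          obtain ⟨z, hz⟩ := hint N T hT
          exact ⟨z, hz.symm⟩
        · rintro ⟨z, rfl⟩
          have h1 : ∃ v, v ∈ vert S := by
            obtain ⟨hSp, -, -⟩ := D0H80.CD.sp_of hS
            have he : 2 * m = (2 * m - 1) + 1 := by omega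
            rw [he] at hSp
            exact hSp.np.nonempty
          obtain ⟨v, hv⟩ := h1
          obtain ⟨N, T, h2, -, h3⟩ := hall N₀ S v hS (mem_vert.1 hv) z
          exact ⟨N, T, h2, h3⟩
      · intro n T₀ v hT hv
        ext q
        constructor
        · rintro ⟨N, T, hT', -, rfl⟩
          obtain ⟨z, hz⟩ := hint N T hT'
          exact ⟨z, hz.symm⟩
        · rintro ⟨z, rfl⟩
          exact hall n T₀ v hT hv z
  have hmono : ∀ m m' : ℕ, m ≤ m' → ¬ CDI k m → ¬ CDI k m' := by
    intro m m' hmm hC hC'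
    apply hC
    intro N S hS
    obtain ⟨r, rfl⟩ : ∃ r, m' = m + r := ⟨m' - m, by omega⟩
    obtain ⟨hSp, -, hlam⟩ := D0H80.CD.sp_of hS
    obtain ⟨α, _, _, P, V, hP, hPl⟩ := D0H80.CD.pents (k := k) r
    obtain ⟨s1, s2⟩ := D0H80.CD.Sp_join hSp hP
    have e1 : 2 * m + 2 * r = 2 * (m + r) := by ring
    rw [e1] at s1
    obtain ⟨N', T, h1, h2⟩ := D0H80.CD.exists_fin s1
    have h3 := hC' N' T h1
    rw [h2, s2, hPl, hlam, pow_add] at h3
    have h5 : (-1 : ℚ) ^ r * (-1 / 4) ^ r = (1 / 4) ^ r := by rw [← mul_pow]; norm_num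
    have h6 : (-1 : ℚ) ^ m * (-1) ^ r * (omega S * (-1 / 4) ^ r) =
        ((-1) ^ m * omega S) * ((-1 : ℚ) ^ r * (-1 / 4) ^ r) := by ring
    rw [h6, h5] at h3
    have h7 : (0 : ℚ) < (1 / 4) ^ r := by positivity
    exact nonneg_of_mul_nonneg_left h3 h7
  have hsym : ∀ m : ℕ, 1 ≤ m → CentralValues k m = (fun q => 2 * q) '' Values k m := by
    intro m hm
    ext q
    constructor
    · rintro ⟨N, T, hT, hc, rfl⟩
      obtain ⟨z, hz⟩ := D0H84.CD.central_even hm (hT i₀) hc
      rw [hz]
      rcases key m hm with ⟨h1, h2, -⟩ | ⟨-, h2, -⟩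
      · have h3 : (-4) ^ m * omega T ∈ Values k m := ⟨N, T, hT, rfl⟩
        rw [h2] at h3
        obtain ⟨y, hy⟩ := h3
        have hy' : (y : ℚ) = 2 * z := hy.trans hz
        have h4 : (y : ℤ) = 2 * z := by exact_mod_cast hy'
        refine ⟨z, ?_, rfl⟩
        rw [h2]
        refine ⟨z.toNat, ?_⟩
        have h5 : ((z.toNat : ℕ) : ℤ) = z := Int.toNat_of_nonneg (by omega)
        have h6 : (((z.toNat : ℕ) : ℤ) : ℚ) = (z : ℚ) := by rw [h5]
        beta_reduce
        rw [← h6, Int.cast_natCast]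
      · refine ⟨z, ?_, rfl⟩
        rw [h2]
        exact ⟨z, rfl⟩
    · rintro ⟨q, hq, rfl⟩
      rcases key m hm with ⟨h1, h2, -⟩ | ⟨h1, h2, -⟩
      · rw [h2] at hq
        obtain ⟨z, rfl⟩ := hq
        exact D0H84.CD.central_nat hm z
      · rw [h2] at hq
        obtain ⟨z, rfl⟩ := hq
        have hC' : ∃ (N₀ : ℕ) (S : Finset (Finset (Fin N₀))),
            (∀ i, IsFlagSphere (k i) (2 * m) S) ∧ (-1) ^ m * omega S < 0 := by
          by_contra hcon
          apply h1
          intro N S hS
          by_contra h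
          exact hcon ⟨N, S, hS, not_le.1 h⟩
        obtain ⟨N₀, S, hS, hneg⟩ := hC'
        exact D0H84.CD.central_all hS hneg z
  refine ⟨key, hmono, ?_, ?_, fun m hm => ⟨hsym m hm, fun h N T hT _ => h N T hT, fun h => ?_⟩⟩
  · intro m hm
    have hneg : ∀ {X : Set ℚ}, X ⊆ Set.range (fun z : ℕ => (z : ℚ)) → (-1 : ℚ) ∉ X := by
      intro X hX h
      obtain ⟨z, hz⟩ := hX h
      have h1 : (0 : ℚ) ≤ z := Nat.cast_nonneg z
      have h2 : (z : ℚ) = -1 := hz
      linarith
    rcases key m hm with ⟨h1, h2, h3⟩ | ⟨h1, h2, h3⟩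
    · refine ⟨⟨fun _ => hneg h2.le, fun _ => h1⟩, ⟨fun _ => ?_, fun _ => h1⟩⟩
      obtain ⟨N, T, hT, -⟩ := D0H80.CD.nat_val (k := k) hm 0
      have h5 : ∃ v, v ∈ vert T := by
        obtain ⟨hSp, -, -⟩ := D0H80.CD.sp_of hT
        have he : 2 * m = (2 * m - 1) + 1 := by omega
        rw [he] at hSp
        exact hSp.np.nonempty
      obtain ⟨v, hv⟩ := h5
      refine ⟨N, T, v, -1, hT, mem_vert.1 hv, ?_⟩
      have := hneg (h3 N T v hT (mem_vert.1 hv)).1
      push_cast
      exact this
    · refine ⟨⟨fun h => absurd h h1, fun h => ?_⟩, ⟨fun h => absurd h h1, ?_⟩⟩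
      · exfalso
        apply h
        rw [h2]
        exact ⟨-1, by push_cast; rfl⟩
      · rintro ⟨n, T₀, v, z, hT, hv, hz⟩
        exfalso
        apply hz
        rw [h3 n T₀ v hT hv]
        exact ⟨z, rfl⟩
  · intro m hm
    obtain ⟨r, rfl⟩ : ∃ r, m = r + 1 := ⟨m - 1, by omega⟩
    have hr : 1 ≤ r := by omega
    refine ⟨?_, ?_⟩
    · intro hC N T e p hT heT he hp
      have hC' : CDI k r := by
        by_contra h
        exact hmono r (r + 1) (by omega) h hC
      exact D0H80.CD.edge_nonneg hC hC' hT heT he hp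
    · intro hC q
      have hall : ∀ (n : ℕ) (T₀ : Finset (Finset (Fin n))) (v : Fin n),
          (∀ i, IsFlagSphere (k i) (2 * (r + 1)) T₀) → {v} ∈ T₀ →
            ValuesOver k (r + 1) T₀ v = Set.range (fun z : ℤ => (z : ℚ)) := by
        rcases key (r + 1) (by omega) with ⟨h1, -, -⟩ | ⟨-, -, h3⟩
        · exact absurd h1 hC
        · exact h3
      have h4 : (-4 : ℚ) ^ (r + 1) ≠ 0 := by positivity
      set t : ℚ := q * (-4) ^ (r + 1) with ht
      have hb : (0 : ℤ) < t.den := by exact_mod_cast t.pos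
      have hbq : (t.den : ℚ) ≠ 0 := by exact_mod_cast t.den_nz
      obtain ⟨J, c, hJ⟩ : ∃ (J : ℕ) (c : ℤ), t.num + J = t.den * c := by
        refine ⟨((-t.num) % t.den).toNat, (t.num + (-t.num) % t.den) / t.den, ?_⟩
        have h1 := Int.emod_nonneg (-t.num) hb.ne'
        rw [Int.toNat_of_nonneg h1]
        have h2 : (t.den : ℤ) ∣ t.num + (-t.num) % t.den := by
          have h3 := Int.emod_add_mul_ediv (-t.num) t.den
          refine ⟨-((-t.num) / t.den), ?_⟩
          linarith
        exact (Int.mul_ediv_cancel' h2).symm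
      obtain ⟨n, T₀, v, a, b, hT₀, hv, hab, hne, hav, hbv, hn, hsum⟩ :=
        D0H80.CD.exists_piece (k := k) hr J
      have hz : (((c - J : ℤ)) : ℚ) ∈ ValuesOver k (r + 1) T₀ v := by
        rw [hall n T₀ v hT₀ hv]
        exact ⟨c - J, rfl⟩
      obtain ⟨N, T, hT, ⟨g, g1, g2, g3⟩, hval⟩ := hz
      have hd₀ : ∀ F ∈ T₀, ∀ G ⊆ F, G ∈ T₀ := by
        obtain ⟨ρ, hρ⟩ := hT₀ i₀
        exact fun F hF G hG => hρ.1 F hF G hG
      have hd : ∀ F ∈ T, ∀ G ⊆ F, G ∈ T := by
        obtain ⟨ρ, hρ⟩ := hT i₀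
        exact fun F hF G hG => hρ.1 F hF G hG
      have ha1 : {a} ∈ T₀ := hd₀ _ hab _ (by
        intro x hx; rw [Finset.mem_singleton] at hx; simp [hx])
      have hb1 : {b} ∈ T₀ := hd₀ _ hab _ (by
        intro x hx; rw [Finset.mem_singleton] at hx; simp [hx])
      have hgab : g a ≠ g b := fun h => hne (g1 a b ha1 hb1 hav hbv h)
      have hcard : ({g a, g b} : Finset (Fin N)).card = 2 := Finset.card_pair hgab
      have heT : ({g a, g b} : Finset (Fin N)) ∈ T := by
        have h1 := (g2 {a, b} (by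
          intro x hx
          rcases Finset.mem_insert.1 hx with h | h
          · rw [h]; exact ⟨ha1, hav⟩
          · rw [Finset.mem_singleton.1 h]; exact ⟨hb1, hbv⟩)).1 hab
        rw [Finset.image_insert, Finset.image_singleton] at h1
        exact h1
      have hden : 1 ≤ t.den := t.pos
      refine ⟨N, T, {g a, g b}, 2 * t.den, hT, heT, hcard, by omega, ?_⟩
      have hE : omegaEdge T {g a, g b} (2 * t.den) = omega T - (1 - 2 / ((2 * t.den : ℕ) : ℚ)) *
          ∑ σ ∈ T.filter (fun σ => ({g a, g b} : Finset (Fin N)) ⊆ σ), (-1 / 2 : ℚ) ^ σ.card :=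
        D0H80.CD.omegaEdge_eq hcard (by omega)
      rw [D0H80.CD.star_sum hd₀ hd g1 g2 g3 hab hav hbv hn] at hE
      set s : ℚ := ∑ A ∈ T₀.filter (fun A => ({a, b} : Finset (Fin n)) ⊆ A),
        (-1 / 2 : ℚ) ^ A.card with hs
      have hJq : (t.num : ℚ) + J = t.den * c := by exact_mod_cast hJ
      have htq : t * t.den = t.num := Rat.mul_den_eq_num t
      have hfin : (-4 : ℚ) ^ (r + 1) * omegaEdge T {g a, g b} (2 * t.den) = t := by
        rw [hE]
        have e1 : (-4 : ℚ) ^ (r + 1) * (omega T - (1 - 2 / ((2 * t.den : ℕ) : ℚ)) * s) =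
            (-4) ^ (r + 1) * omega T + (1 - 1 / t.den) * (4 * ((-4) ^ r * s)) := by
          push_cast
          field_simp
          ring
        rw [e1, hval, hsum]
        push_cast
        have e2 : ((t.den : ℚ) * c - J) / t.den = t := by
          rw [div_eq_iff hbq, htq]; linarith
        have e3 : ((c : ℚ) - J) + (1 - 1 / (t.den : ℚ)) * (4 * (J / 4)) =
            ((t.den : ℚ) * c - J) / t.den := by
          field_simp
          ring
        exact e3.trans e2
      have hq : t = (-4) ^ (r + 1) * q := by rw [ht]; ring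
      exact mul_left_cancel₀ h4 (hfin.trans hq)
  · by_contra hC
    rcases key m hm with ⟨h1, -, -⟩ | ⟨-, h2, -⟩
    · exact hC h1
    · have h3 : (2 * (-1) : ℚ) ∈ CentralValues k m := by
        rw [hsym m hm, h2]
        exact ⟨-1, ⟨-1, by push_cast; rfl⟩, rfl⟩
      obtain ⟨N, T, hT, hc, hq⟩ := h3
      have h4 := h N T hT hc
      have e2 : (-4 : ℚ) ^ m = 4 ^ m * (-1) ^ m := by rw [← mul_pow]; norm_num
      have h5 : (0 : ℚ) < 4 ^ m := by positivity
      rw [e2, mul_assoc] at hq
      have h6 := mul_nonneg h5.le h4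
      linarith

end Pool.Agent.Results.MP_375bfa_co.ValuesDichotomy
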